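import Pool.Agent.Lib_helper61.Gci.Ball

/-!
Left translations of the word tree and the induced embeddings `tree r ↪g tree R`.
-/

set_option autoImplicit false

namespace Pool.Agent.Lib_helper61.Gci

open SimpleGraph

namespace Word

/-- left multiplication by `w` -/
def mul (w p : Word) : Word := p.l.foldr (fun i x => x.nb i) w

@[simp] theorem mul_one (w : Word) : w.mul one = w := rfl

theorem ind {P : Word → Prop} (h0 : P one) (h1 : ∀ w i, P w → w.l.head? ≠ some i → P (w.nb i)) :
    ∀ w, P w := by
  rintro ⟨l, hl⟩
  induction l with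
  | nil => exact h0
  | cons a l ih =>
    have h2 := ih hl.tail
    have h3 : (⟨l, hl.tail⟩ : Word).l.head? ≠ some a := by
      intro h
      cases l with
      | nil => simp at h
      | cons b l =>
        rw [List.isChain_cons_cons] at hl
        simp only [List.head?_cons, Option.some.injEq] at h
        exact hl.1 h.symm
    have h4 := h1 _ a h2 h3
    have h5 : (⟨l, hl.tail⟩ : Word).nb a = ⟨a :: l, hl⟩ := by
      apply Word.ext
      rw [nb_l, if_neg h3]
    rw [h5] at h4
    exact h4

theorem mul_nb (w p : Word) (i : Fin 4) : w.mul (p.nb i) = (w.mul p).nb i := by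
  unfold mul
  rw [nb_l]
  split_ifs with h
  · obtain ⟨l, hl⟩ := p
    cases l with
    | nil => simp at h
    | cons a l =>
      simp only [List.head?_cons, Option.some.injEq] at h
      subst h
      simp only [List.tail_cons, List.foldr_cons]
      rw [nb_nb]
  · rfl

theorem one_mul (p : Word) : one.mul p = p := by
  induction p using ind with
  | h0 => rfl
  | h1 w i ih h => rw [mul_nb, ih]

theorem mul_assoc (u v p : Word) : (u.mul v).mul p = u.mul (v.mul p) := by
  induction p using ind with
  | h0 => rfl
  | h1 w i ih h => rw [mul_nb, ih, mul_nb, mul_nb]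

theorem exists_inv (w : Word) : ∃ v : Word, v.mul w = one ∧ w.mul v = one := by
  induction w using ind with
  | h0 => exact ⟨one, rfl, rfl⟩
  | h1 w i ih h =>
    obtain ⟨v, hv1, hv2⟩ := ih
    refine ⟨(one.nb i).mul v, ?_, ?_⟩
    · rw [mul_nb, mul_assoc, hv1, mul_one, nb_nb]
    · have hw : w.nb i = w.mul (one.nb i) := by rw [mul_nb, mul_one]
      rw [hw, mul_assoc, ← mul_assoc (one.nb i) (one.nb i) v]
      have : (one.nb i).mul (one.nb i) = one := by rw [mul_nb, mul_one, nb_nb]
      rw [this, one_mul, hv2]

theorem mul_left_injective (w : Word) : Function.Injective w.mul := by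
  obtain ⟨v, hv, _⟩ := exists_inv w
  intro p q h
  have h2 := congrArg v.mul h
  rw [← mul_assoc, ← mul_assoc, hv, one_mul, one_mul] at h2
  exact h2

theorem mul_left_surjective (w : Word) : Function.Surjective w.mul := by
  obtain ⟨v, _, hv⟩ := exists_inv w
  intro q
  exact ⟨v.mul q, by rw [← mul_assoc, hv, one_mul]⟩

theorem len_mul_le (w p : Word) : (w.mul p).len ≤ w.len + p.len := by
  induction p using ind with
  | h0 => simp
  | h1 q i ih h =>
    rw [mul_nb]
    have h1 := len_nb_le (w.mul q) i
    have h2 : (q.nb i).len = q.len + 1 := by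
      unfold len
      rw [nb_l, if_neg h]; simp
    omega

end Word

end Pool.Agent.Lib_helper61.Gci
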