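import Pool.Agent.Lib_helper61.Gci.Game

/-!
Bob wins the edge colouring game with exactly four colours on every graph that contains two
far apart fresh sites (a vertex with four neighbours, each with three further neighbours).
-/

set_option autoImplicit false

namespace Pool.Agent.Lib_helper61.Gci

open SimpleGraph

variable {V : Type}

/-- Static branch: `u - v`, and three further neighbours `vs` of `v`. -/
structure SBranch (G : SimpleGraph V) (u v : V) (vs : Fin 3 → V) : Prop where
  uv : G.Adj u v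
  adj : ∀ i, G.Adj v (vs i)
  inj : Function.Injective vs
  nadj : ∀ i j, ¬ G.Adj (vs i) (vs j)
  ne : ∀ i, vs i ≠ u

/-- The branch is fresh in `c`. -/
structure Fresh (G : SimpleGraph V) (c : Sym2 V → Option (Fin 4)) (v : V) (vs : Fin 3 → V) :
    Prop where
  v0 : seen G c v = ∅
  vs0 : ∀ i, seen G c (vs i) = ∅

theorem none_of_seen {G : SimpleGraph V} {k : ℕ} {c : Sym2 V → Option (Fin k)} {v x : V}
    (h : seen G c v = ∅) (hadj : G.Adj v x) : c s(v, x) = none := by
  by_contra hne
  obtain ⟨a, ha⟩ := Option.ne_none_iff_exists'.1 hne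
  have : a ∈ seen G c v := ⟨x, hadj, ha⟩
  rw [h] at this
  exact this

theorem seen_mono [DecidableEq V] {G : SimpleGraph V} {k : ℕ} {c : Sym2 V → Option (Fin k)}
    {p q : V} (hadj : G.Adj p q) (hn : c s(p, q) = none) (a : Fin k) {w : V} {b : Fin k}
    (h : b ∈ seen G c w) : b ∈ seen G (Function.update c s(p, q) (some a)) w := by
  rw [seen_update hadj hn]
  split_ifs
  · exact Set.mem_insert_of_mem _ h
  · exact h

theorem seen_self [DecidableEq V] {G : SimpleGraph V} {k : ℕ} {c : Sym2 V → Option (Fin k)}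
    {p q : V} (hadj : G.Adj p q) (hn : c s(p, q) = none) (a : Fin k) :
    a ∈ seen G (Function.update c s(p, q) (some a)) p := by
  rw [seen_update hadj hn, if_pos (Or.inl rfl)]
  exact Set.mem_insert _ _

theorem seen_of_ne [DecidableEq V] {G : SimpleGraph V} {k : ℕ} {c : Sym2 V → Option (Fin k)}
    {p q : V} (hadj : G.Adj p q) (hn : c s(p, q) = none) (a : Fin k) {w : V}
    (h1 : w ≠ p) (h2 : w ≠ q) :
    seen G (Function.update c s(p, q) (some a)) w = seen G c w := by
  rw [seen_update hadj hn, if_neg (by push Not; exact ⟨h1, h2⟩)]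

theorem upd_ne [DecidableEq V] {k : ℕ} {c : Sym2 V → Option (Fin k)}
    {p q r s : V} (a : Fin k) (h1 : r ≠ p) (h2 : r ≠ q) :
    Function.update c s(p, q) (some a) s(r, s) = c s(r, s) := by
  rw [Function.update_of_ne]
  intro h
  rcases Sym2.eq_iff.1 h with ⟨h3, _⟩ | ⟨h3, _⟩
  · exact h1 h3
  · exact h2 h3

theorem upd_ne' [DecidableEq V] {k : ℕ} {c : Sym2 V → Option (Fin k)}
    {p q r s : V} (a : Fin k) (h1 : s ≠ p) (h2 : s ≠ q) :
    Function.update c s(p, q) (some a) s(r, s) = c s(r, s) := by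
  rw [Function.update_of_ne]
  intro h
  rcases Sym2.eq_iff.1 h with ⟨_, h3⟩ | ⟨_, h3⟩
  · exact h2 h3
  · exact h1 h3

/-- four colours: two distinct ones determine the remaining two -/
theorem four_colors : ∀ c1 c2 : Fin 4, c1 ≠ c2 →
    ∃ c3 c4 : Fin 4, c3 ≠ c4 ∧ c3 ≠ c1 ∧ c3 ≠ c2 ∧ c4 ≠ c1 ∧ c4 ≠ c2 ∧
      ∀ a, a = c1 ∨ a = c2 ∨ a = c3 ∨ a = c4 := by decide

theorem four_last : ∀ c1 c2 a : Fin 4, c1 ≠ c2 → a ≠ c1 → a ≠ c2 →
    ∃ y : Fin 4, ∀ b, b = c1 ∨ b = c2 ∨ b = a ∨ b = y := by decide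

variable [Finite V] [DecidableEq V] {G : SimpleGraph V}

/-- Bob to move, `u` sees two colours, one intact branch `w` and a usable edge `v v'`. -/
theorem four_bob {c : Sym2 V → Option (Fin 4)} (hodd : ¬ Even (cnt G c))
    {u v w v' : V} {ws : Fin 3 → V} {c1 c2 : Fin 4} (hc : c1 ≠ c2)
    (h1 : c1 ∈ seen G c u) (h2 : c2 ∈ seen G c u)
    (huv : G.Adj u v) (huvn : c s(u, v) = none)
    (hw : SBranch G u w ws) (hwf : Fresh G c w ws)
    (hvw : v ≠ w) (hvws : ∀ i, ws i ≠ v)
    (hvv : G.Adj v v') (hvvn : c s(v, v') = none) (hv0 : seen G c v' = ∅)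
    (hv'u : v' ≠ u) (hv'w : v' ≠ w) (hv'ws : ∀ i, v' ≠ ws i) : BobWins G c := by
  obtain ⟨c3, c4, h34, h31, h32, h41, h42, hall⟩ := four_colors c1 c2 hc
  have hwn : ∀ i, c s(w, ws i) = none := fun i => none_of_seen hwf.v0 (hw.adj i)
  have hwu : w ≠ u := hw.uv.ne'
  have huwn : c s(u, w) = none := by
    rw [Sym2.eq_swap]; exact none_of_seen hwf.v0 hw.uv.symm
  -- Bob plays `c3` at `w ws0`
  refine bobWins_of_move hodd (hw.adj 0) (hwn 0) (a := c3) ?_ ?_
  · rw [leg_iff (hwn 0), hwf.v0, hwf.vs0 0]; simp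
  set d := Function.update c s(w, ws 0) (some c3) with hd
  have hcd : cnt G d = cnt G c + 1 := cnt_update (hw.adj 0) (hwn 0) c3
  have heven : Even (cnt G d) := by
    rw [hcd, Nat.even_add_one]; exact hodd
  have hdw : c3 ∈ seen G d w := seen_self (hw.adj 0) (hwn 0) c3
  have hduw : d s(u, w) = none := by
    rw [hd, upd_ne _ hwu.symm (hw.ne 0).symm, huwn]
  have hduv : d s(u, v) = none := by
    rw [hd, upd_ne _ hwu.symm (hw.ne 0).symm, huvn]
  have hd1 : c1 ∈ seen G d u := seen_mono (hw.adj 0) (hwn 0) _ h1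
  have hd2 : c2 ∈ seen G d u := seen_mono (hw.adj 0) (hwn 0) _ h2
  have hdws : ∀ i, i ≠ 0 → seen G d (ws i) = ∅ := by
    intro i hi
    rw [hd, seen_of_ne (hw.adj 0) (hwn 0) _ (hw.adj i).ne' (fun h => hi (hw.inj h)), hwf.vs0 i]
  have hdwn : ∀ i, i ≠ 0 → d s(w, ws i) = none := by
    intro i hi
    rw [hd, upd_ne' _ (hw.adj i).ne' (fun h => hi (hw.inj h)), hwn i]
  have hdvv : d s(v, v') = none := by
    rw [hd, upd_ne' _ hv'w (hv'ws 0), hvvn]
  have hdv' : seen G d v' = ∅ := by
    rw [hd, seen_of_ne (hw.adj 0) (hwn 0) _ hv'w (hv'ws 0), hv0]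
  refine bobWins_of_forall heven ⟨s(u, w), hw.uv, hduw⟩ ?_
  intro e he a hen hleg
  induction e using Sym2.ind with
  | _ p q =>
  have hpq : G.Adj p q := he
  set d2 := Function.update d s(p, q) (some a) with hd2def
  have hc2 : cnt G d2 = cnt G d + 1 := cnt_update he hen a
  have hodd2 : ¬ Even (cnt G d2) := by
    rw [hc2, Nat.even_add_one]; simpa using heven
  by_cases heuw : s(p, q) = s(u, w)
  · -- Alice colours `u w`
    rw [heuw] at hd2def hleg hen
    have hl := (leg_iff hduw a).1 hleg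
    have ha : a = c4 := by
      rcases hall a with h | h | h | h
      · rw [h] at hl; exact absurd hd1 hl.1
      · rw [h] at hl; exact absurd hd2 hl.1
      · rw [h] at hl; exact absurd hdw hl.2
      · exact h
    have e1 : c1 ∈ seen G d2 u := by rw [hd2def]; exact seen_mono hw.uv hduw _ hd1
    have e2 : c2 ∈ seen G d2 u := by rw [hd2def]; exact seen_mono hw.uv hduw _ hd2
    have e4 : c4 ∈ seen G d2 u := by rw [hd2def, ← ha]; exact seen_self hw.uv hduw _
    have e5 : d2 s(u, v) = none := by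
      rw [hd2def, upd_ne' _ huv.ne' hvw, hduv]
    by_cases h3 : c3 ∈ seen G d2 v
    · refine bobWins_of_dead huv e5 ?_
      intro b
      rcases hall b with h | h | h | h
      · exact Or.inl (h ▸ e1)
      · exact Or.inl (h ▸ e2)
      · exact Or.inr (h ▸ h3)
      · exact Or.inl (h ▸ e4)
    · have e6 : d2 s(v, v') = none := by
        rw [hd2def, upd_ne' _ hv'u hv'w, hdvv]
      have e7 : seen G d2 v' = ∅ := by
        rw [hd2def, seen_of_ne hw.uv hduw _ hv'u hv'w, hdv']
      refine bobWins_of_move hodd2 hvv e6 (a := c3) ?_ ?_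
      · rw [leg_iff e6, e7]; exact ⟨h3, by simp⟩
      · have e8 : Function.update d2 s(v, v') (some c3) s(u, v) = none := by
          rw [upd_ne _ huv.ne hv'u.symm, e5]
        refine bobWins_of_dead huv e8 ?_
        intro b
        rcases hall b with h | h | h | h
        · exact Or.inl (h ▸ seen_mono hvv e6 _ e1)
        · exact Or.inl (h ▸ seen_mono hvv e6 _ e2)
        · exact Or.inr (h ▸ seen_self hvv e6 _)
        · exact Or.inl (h ▸ seen_mono hvv e6 _ e4)
  · -- Alice does something else; `u w` is still uncoloured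
    have e0 : d2 s(u, w) = none := by
      rw [hd2def, Function.update_of_ne (fun h => heuw h.symm), hduw]
    have e1 : c1 ∈ seen G d2 u := seen_mono hpq hen _ hd1
    have e2 : c2 ∈ seen G d2 u := seen_mono hpq hen _ hd2
    have e3 : c3 ∈ seen G d2 w := seen_mono hpq hen _ hdw
    by_cases h4 : c4 ∈ seen G d2 w
    · refine bobWins_of_dead hw.uv e0 ?_
      intro b
      rcases hall b with h | h | h | h
      · exact Or.inl (h ▸ e1)
      · exact Or.inl (h ▸ e2)
      · exact Or.inr (h ▸ e3)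
      · exact Or.inr (h ▸ h4)
    · -- a usable edge at `w`
      have hex : ∃ i, d2 s(w, ws i) = none ∧ c4 ∉ seen G d2 (ws i) := by
        have hgen : ∀ i, i ≠ 0 → ws i ≠ p → ws i ≠ q →
            d2 s(w, ws i) = none ∧ c4 ∉ seen G d2 (ws i) := by
          intro i hi hp hq
          constructor
          · rw [hd2def, upd_ne' _ hp hq, hdwn i hi]
          · rw [hd2def, seen_of_ne hpq hen _ hp hq, hdws i hi]; simp
        have h12 : ws 1 ≠ ws 2 := fun h => absurd (hw.inj h) (by decide)
        by_cases hx : ws 1 ≠ p ∧ ws 1 ≠ q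
        · exact ⟨1, hgen 1 (by decide) hx.1 hx.2⟩
        · refine ⟨2, hgen 2 (by decide) ?_ ?_⟩
          · intro h
            apply hx
            constructor
            · intro h'; exact h12 (h'.trans h.symm)
            · intro h'; rw [← h, ← h'] at hpq; exact hw.nadj _ _ hpq
          · intro h
            apply hx
            constructor
            · intro h'; rw [← h, ← h'] at hpq; exact hw.nadj _ _ hpq
            · intro h'; exact h12 (h'.trans h.symm)
      obtain ⟨i, hi1, hi2⟩ := hex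
      refine bobWins_of_move hodd2 (hw.adj i) hi1 (a := c4) ?_ ?_
      · rw [leg_iff hi1]; exact ⟨h4, hi2⟩
      · have e8 : Function.update d2 s(w, ws i) (some c4) s(u, w) = none := by
          rw [upd_ne _ hwu.symm (hw.ne i).symm, e0]
        refine bobWins_of_dead hw.uv e8 ?_
        intro b
        rcases hall b with h | h | h | h
        · exact Or.inl (h ▸ seen_mono (hw.adj i) hi1 _ e1)
        · exact Or.inl (h ▸ seen_mono (hw.adj i) hi1 _ e2)
        · exact Or.inr (h ▸ seen_mono (hw.adj i) hi1 _ e3)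
        · exact Or.inr (h ▸ seen_self (hw.adj i) hi1 _)

/-- Two branches are separated: disjoint and without edges between them. -/
structure Sep (G : SimpleGraph V) (v : V) (vs : Fin 3 → V) (w : V) (ws : Fin 3 → V) : Prop where
  vw : v ≠ w
  vws : ∀ i, v ≠ ws i
  vsw : ∀ i, vs i ≠ w
  vsws : ∀ i j, vs i ≠ ws j
  avw : ¬ G.Adj v w
  avws : ∀ i, ¬ G.Adj v (ws i)
  avsw : ∀ i, ¬ G.Adj (vs i) w
  avsws : ∀ i j, ¬ G.Adj (vs i) (ws j)

theorem Sep.symm {G : SimpleGraph V} {v w : V} {vs ws : Fin 3 → V} (h : Sep G v vs w ws) :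
    Sep G w ws v vs where
  vw := h.vw.symm
  vws := fun i => (h.vsw i).symm
  vsw := fun i => (h.vws i).symm
  vsws := fun i j => (h.vsws j i).symm
  avw := fun h' => h.avw h'.symm
  avws := fun i h' => h.avsw i h'.symm
  avsw := fun i h' => h.avws i h'.symm
  avsws := fun i j h' => h.avsws j i h'.symm

/-- membership of a vertex in a branch -/
def InB (v : V) (vs : Fin 3 → V) (p : V) : Prop := p = v ∨ ∃ i, p = vs i

/-- An edge cannot meet two separated branches. -/
theorem Sep.edge {G : SimpleGraph V} {v w : V} {vs ws : Fin 3 → V} (h : Sep G v vs w ws)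
    {p q : V} (hpq : G.Adj p q) (h1 : InB v vs p ∨ InB v vs q) :
    ¬ InB w ws p ∧ ¬ InB w ws q := by
  have main : ∀ p q, G.Adj p q → InB v vs p → ¬ InB w ws p ∧ ¬ InB w ws q := by
    rintro p q hpq (rfl | ⟨i, rfl⟩)
    · refine ⟨?_, ?_⟩
      · rintro (h2 | ⟨j, h2⟩)
        · exact h.vw h2
        · exact h.vws j h2
      · rintro (rfl | ⟨j, rfl⟩)
        · exact h.avw hpq
        · exact h.avws j hpq
    · refine ⟨?_, ?_⟩
      · rintro (h2 | ⟨j, h2⟩)
        · exact h.vsw i h2
        · exact h.vsws i j h2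
      · rintro (rfl | ⟨j, rfl⟩)
        · exact h.avsw i hpq
        · exact h.avsws i j hpq
  rcases h1 with h1 | h1
  · exact main p q hpq h1
  · exact (main q p hpq.symm h1).symm

theorem Fresh.of_update {G : SimpleGraph V} {c : Sym2 V → Option (Fin 4)} {v : V}
    {vs : Fin 3 → V} (h : Fresh G c v vs) {p q : V} (hpq : G.Adj p q)
    (hn : c s(p, q) = none) (a : Fin 4) (hp : ¬ InB v vs p) (hq : ¬ InB v vs q) :
    Fresh G (Function.update c s(p, q) (some a)) v vs where
  v0 := by
    rw [seen_of_ne hpq hn _ (fun h => hp (Or.inl h.symm)) (fun h => hq (Or.inl h.symm)), h.v0]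
  vs0 := fun i => by
    rw [seen_of_ne hpq hn _ (fun h => hp (Or.inr ⟨i, h.symm⟩)) (fun h => hq (Or.inr ⟨i, h.symm⟩)),
      h.vs0 i]

/-- Alice to move, `u` sees two colours and has two fresh separated branches. -/
theorem four_alice {c : Sym2 V → Option (Fin 4)} (heven : Even (cnt G c))
    {u v w : V} {vs ws : Fin 3 → V} {c1 c2 : Fin 4} (hc : c1 ≠ c2)
    (h1 : c1 ∈ seen G c u) (h2 : c2 ∈ seen G c u)
    (hv : SBranch G u v vs) (hvf : Fresh G c v vs)
    (hw : SBranch G u w ws) (hwf : Fresh G c w ws)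
    (hs : Sep G v vs w ws) : BobWins G c := by
  have huvn : c s(u, v) = none := by
    rw [Sym2.eq_swap]; exact none_of_seen hvf.v0 hv.uv.symm
  have huwn : c s(u, w) = none := by
    rw [Sym2.eq_swap]; exact none_of_seen hwf.v0 hw.uv.symm
  refine bobWins_of_forall heven ⟨s(u, w), hw.uv, huwn⟩ ?_
  intro e he a hen hleg
  induction e using Sym2.ind with
  | _ p q =>
  have hpq : G.Adj p q := he
  have hc2 : cnt G (Function.update c s(p, q) (some a)) = cnt G c + 1 := cnt_update he hen a
  have hodd2 : ¬ Even (cnt G (Function.update c s(p, q) (some a))) := by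
    rw [hc2, Nat.even_add_one]; simpa using heven
  -- Alice colours `u x`; then Bob kills `u y`
  have kill : ∀ (x y : V) (ys : Fin 3 → V), SBranch G u y ys → Fresh G c y ys → G.Adj u x →
      c s(u, x) = none → x ≠ y → (∀ i, x ≠ ys i) → s(p, q) = s(u, x) →
      BobWins G (Function.update c s(p, q) (some a)) := by
    intro x y ys hy hyf hux huxn hxy hxys heq
    rw [heq] at hleg hodd2 ⊢
    have hl := (leg_iff huxn a).1 hleg
    obtain ⟨b, hb⟩ := four_last c1 c2 a hc (fun h => hl.1 (h ▸ h1)) (fun h => hl.1 (h ▸ h2))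
    set d := Function.update c s(u, x) (some a) with hd
    have hdy : seen G d y = ∅ := by
      rw [hd, seen_of_ne hux huxn _ hy.uv.ne' hxy.symm, hyf.v0]
    have hdy0 : seen G d (ys 0) = ∅ := by
      rw [hd, seen_of_ne hux huxn _ (hy.ne 0) (hxys 0).symm, hyf.vs0 0]
    have hdn : d s(y, ys 0) = none := none_of_seen hdy (hy.adj 0)
    refine bobWins_of_move hodd2 (hy.adj 0) hdn (a := b) ?_ ?_
    · rw [leg_iff hdn, hdy, hdy0]; simp
    · have e5 : Function.update d s(y, ys 0) (some b) s(u, y) = none := by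
        rw [upd_ne _ hy.uv.ne (hy.ne 0).symm, Sym2.eq_swap]
        exact none_of_seen hdy hy.uv.symm
      refine bobWins_of_dead hy.uv e5 ?_
      intro b'
      rcases hb b' with h | h | h | h
      · exact Or.inl (h ▸ seen_mono (hy.adj 0) hdn _ (seen_mono hux huxn _ h1))
      · exact Or.inl (h ▸ seen_mono (hy.adj 0) hdn _ (seen_mono hux huxn _ h2))
      · exact Or.inl (h ▸ seen_mono (hy.adj 0) hdn _ (seen_self hux huxn _))
      · exact Or.inr (h ▸ seen_self (hy.adj 0) hdn _)
  by_cases heuv : s(p, q) = s(u, v)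
  · exact kill v w ws hw hwf hv.uv huvn hs.vw hs.vws heuv
  by_cases heuw : s(p, q) = s(u, w)
  · exact kill w v vs hv hvf hw.uv huwn hs.vw.symm (fun i => (hs.vsw i).symm) heuw
  -- otherwise one of the branches is intact
  have main : ∀ (x y : V) (xs ys : Fin 3 → V), SBranch G u x xs → Fresh G c x xs →
      SBranch G u y ys → Fresh G c y ys → Sep G x xs y ys → s(p, q) ≠ s(u, x) →
      ¬ InB y ys p → ¬ InB y ys q →
      BobWins G (Function.update c s(p, q) (some a)) := by
    intro x y xs ys hx hxf hy hyf hxy hne hp hq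
    have hux : Function.update c s(p, q) (some a) s(u, x) = none := by
      rw [Function.update_of_ne (fun h => hne h.symm), Sym2.eq_swap]
      exact none_of_seen hxf.v0 hx.uv.symm
    -- choose a free neighbour
    have hex : ∃ i, xs i ≠ p ∧ xs i ≠ q := by
      by_contra hno
      push Not at hno
      have h01 : xs 0 ≠ xs 1 := fun h => absurd (hx.inj h) (by decide)
      have h02 : xs 0 ≠ xs 2 := fun h => absurd (hx.inj h) (by decide)
      have h12 : xs 1 ≠ xs 2 := fun h => absurd (hx.inj h) (by decide)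
      have a0 := hno 0
      have a1 := hno 1
      have a2 := hno 2
      by_cases b0 : xs 0 = p
      · have b1 : xs 1 = q := a1 (fun h => h01 (b0.trans h.symm))
        have b2 : xs 2 = q := a2 (fun h => h02 (b0.trans h.symm))
        exact h12 (b1.trans b2.symm)
      · have b0' := a0 b0
        by_cases b1 : xs 1 = p
        · have b2 : xs 2 = q := a2 (fun h => h12 (b1.trans h.symm))
          exact h02 (b0'.trans b2.symm)
        · exact h01 (b0'.trans (a1 b1).symm)
    obtain ⟨i, hi1, hi2⟩ := hex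
    refine four_bob hodd2 hc (seen_mono hpq hen _ h1) (seen_mono hpq hen _ h2) hx.uv hux hy
      (hyf.of_update hpq hen a hp hq) hxy.vw (fun j => (hxy.vws j).symm) (hx.adj i) ?_ ?_
      (hx.ne i) (hxy.vsw i) (hxy.vsws i)
    · rw [upd_ne' _ hi1 hi2]; exact none_of_seen hxf.v0 (hx.adj i)
    · rw [seen_of_ne hpq hen _ hi1 hi2, hxf.vs0 i]
  by_cases hin : InB w ws p ∨ InB w ws q
  · have h3 := hs.symm.edge hpq hin
    exact main w v ws vs hw hwf hv hvf hs.symm heuw h3.1 h3.2
  · push Not at hin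
    exact main v w vs ws hv hvf hw hwf hs heuv hin.1 hin.2

/-- A site: a vertex with four neighbours, each with three further neighbours. -/
structure Site (G : SimpleGraph V) (u : V) (n : Fin 4 → V) (m : Fin 4 → Fin 3 → V) : Prop where
  br : ∀ i, SBranch G u (n i) (m i)
  sep : ∀ i j, i ≠ j → Sep G (n i) (m i) (n j) (m j)

/-- membership of a vertex in a site -/
def InS (u : V) (n : Fin 4 → V) (m : Fin 4 → Fin 3 → V) (p : V) : Prop :=
  p = u ∨ ∃ i, InB (n i) (m i) p

theorem three_idx (i : Fin 4) (hi : i ≠ 0) : ∃ j l : Fin 4, j ≠ 0 ∧ l ≠ 0 ∧ j ≠ l ∧ i ≠ j ∧ i ≠ l := by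
  revert i; decide

theorem pick_color : ∀ a : Fin 4, ∃ b : Fin 4, b ≠ 0 ∧ b ≠ a := by decide

/-- Bob to move and a completely fresh site: Bob wins with four colours. -/
theorem four_site {c : Sym2 V → Option (Fin 4)} (hodd : ¬ Even (cnt G c))
    {u : V} {n : Fin 4 → V} {m : Fin 4 → Fin 3 → V} (hs : Site G u n m)
    (h0 : ∀ p, InS u n m p → seen G c p = ∅) : BobWins G c := by
  have hu : seen G c u = ∅ := h0 u (Or.inl rfl)
  have hf : ∀ i, Fresh G c (n i) (m i) := fun i =>
    ⟨h0 _ (Or.inr ⟨i, Or.inl rfl⟩), fun j => h0 _ (Or.inr ⟨i, Or.inr ⟨j, rfl⟩⟩)⟩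
  have hn0 : c s(u, n 0) = none := none_of_seen hu (hs.br 0).uv
  have hadj0 := (hs.br 0).uv
  refine bobWins_of_move hodd hadj0 hn0 (a := 0) ?_ ?_
  · rw [leg_iff hn0, hu, (hf 0).v0]; simp
  set d := Function.update c s(u, n 0) (some (0 : Fin 4)) with hd
  have hcd : cnt G d = cnt G c + 1 := cnt_update hadj0 hn0 _
  have heven : Even (cnt G d) := by
    rw [hcd, Nat.even_add_one]; exact hodd
  have hdu : seen G d u = {0} := by
    rw [hd, seen_update hadj0 hn0, if_pos (Or.inl rfl), hu]; simp
  have hni : ∀ i, i ≠ 0 → n i ≠ n 0 := fun i hi => (hs.sep i 0 hi).vw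
  have hdf : ∀ i, i ≠ 0 → Fresh G d (n i) (m i) := by
    intro i hi
    refine (hf i).of_update hadj0 hn0 _ ?_ ?_
    · rintro (h | ⟨j, h⟩)
      · exact (hs.br i).uv.ne h
      · exact (hs.br i).ne j h.symm
    · rintro (h | ⟨j, h⟩)
      · exact (hni i hi) h.symm
      · exact (hs.sep 0 i hi.symm).vws j h
  have hdn : ∀ i, i ≠ 0 → d s(u, n i) = none := by
    intro i hi
    rw [Sym2.eq_swap]; exact none_of_seen (hdf i hi).v0 (hs.br i).uv.symm
  refine bobWins_of_forall heven ⟨s(u, n 1), (hs.br 1).uv, hdn 1 (by decide)⟩ ?_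
  intro e he a hen hleg
  induction e using Sym2.ind with
  | _ p q =>
  have hpq : G.Adj p q := he
  set d2 := Function.update d s(p, q) (some a) with hd2
  have hc2 : cnt G d2 = cnt G d + 1 := cnt_update he hen a
  have hodd2 : ¬ Even (cnt G d2) := by
    rw [hc2, Nat.even_add_one]; simpa using heven
  -- an index `i ≠ 0` such that the edge avoids the two other branches
  have hidx : ∃ i : Fin 4, i ≠ 0 ∧ ∀ j, j ≠ 0 → j ≠ i → ¬ InB (n j) (m j) p ∧ ¬ InB (n j) (m j) q := by
    by_cases h : ∃ i : Fin 4, i ≠ 0 ∧ (InB (n i) (m i) p ∨ InB (n i) (m i) q)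
    · obtain ⟨i, hi, hin⟩ := h
      exact ⟨i, hi, fun j _ hji => (hs.sep i j hji.symm).edge hpq hin⟩
    · push Not at h
      exact ⟨1, by decide, fun j hj _ => h j hj⟩
  obtain ⟨i, hi, hav⟩ := hidx
  obtain ⟨j, l, hj, hl, hjl, hij, hil⟩ := three_idx i hi
  have avj := hav j hj hij.symm
  have avl := hav l hl hil.symm
  have fj : Fresh G d2 (n j) (m j) := (hdf j hj).of_update hpq hen a avj.1 avj.2
  have fl : Fresh G d2 (n l) (m l) := (hdf l hl).of_update hpq hen a avl.1 avl.2
  have h0u : (0 : Fin 4) ∈ seen G d2 u := seen_mono hpq hen _ (by rw [hdu]; simp)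
  by_cases hup : u = p ∨ u = q
  · -- Alice coloured an edge at `u`
    have hau : a ∈ seen G d2 u := by
      rw [hd2, seen_update hpq hen, if_pos hup]; exact Set.mem_insert _ _
    have ha0 : (0 : Fin 4) ≠ a := by
      rintro rfl
      have hl := (leg_iff hen _).1 hleg
      rcases hup with rfl | rfl
      · apply hl.1; rw [hdu]; simp
      · apply hl.2; rw [hdu]; simp
    exact four_bob hodd2 ha0 h0u hau (hs.br j).uv
      (by rw [Sym2.eq_swap]; exact none_of_seen fj.v0 (hs.br j).uv.symm) (hs.br l) fl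
      (hs.sep j l hjl).vw (fun x => ((hs.sep j l hjl).vws x).symm) ((hs.br j).adj 0)
      (none_of_seen fj.v0 ((hs.br j).adj 0)) (fj.vs0 0) ((hs.br j).ne 0)
      ((hs.sep j l hjl).vsw 0) ((hs.sep j l hjl).vsws 0)
  · push Not at hup
    have hd2u : seen G d2 u = {0} := by
      rw [hd2, seen_of_ne hpq hen _ hup.1 hup.2, hdu]
    obtain ⟨b, hb0, hba⟩ := pick_color a
    have hd2n : d2 s(u, n i) = none := by
      rw [hd2, upd_ne _ hup.1 hup.2, hdn i hi]
    have hni2 : b ∉ seen G d2 (n i) := by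
      rw [hd2, seen_update hpq hen, (hdf i hi).v0]
      split_ifs
      · simpa using hba
      · simp
    refine bobWins_of_move hodd2 (hs.br i).uv hd2n (a := b) ?_ ?_
    · rw [leg_iff hd2n, hd2u]; exact ⟨by simpa using hb0, hni2⟩
    · have hc3 := cnt_update (G := G) (hs.br i).uv hd2n b
      have heven3 : Even (cnt G (Function.update d2 s(u, n i) (some b))) := by
        rw [hc3, Nat.even_add_one]; exact hodd2
      have hfr : ∀ x, x ≠ i → Fresh G d2 (n x) (m x) →
          Fresh G (Function.update d2 s(u, n i) (some b)) (n x) (m x) := by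
        intro x hx hxf
        refine hxf.of_update (hs.br i).uv hd2n _ ?_ ?_
        · rintro (h | ⟨y, h⟩)
          · exact (hs.br x).uv.ne h
          · exact (hs.br x).ne y h.symm
        · rintro (h | ⟨y, h⟩)
          · exact (hs.sep i x hx.symm).vw h
          · exact (hs.sep i x hx.symm).vws y h
      exact four_alice heven3 hb0.symm (seen_mono (hs.br i).uv hd2n _ h0u)
        (seen_self (hs.br i).uv hd2n _) (hs.br j) (hfr j hij.symm fj) (hs.br l)
        (hfr l hil.symm fl) (hs.sep j l hjl)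

/-- With four colours Bob wins on every graph with two far apart sites. -/
theorem four_main {u u' : V} {n n' : Fin 4 → V} {m m' : Fin 4 → Fin 3 → V}
    (hs : Site G u n m) (hs' : Site G u' n' m')
    (hdis : ∀ p q, InS u n m p → InS u' n' m' q → p ≠ q ∧ ¬ G.Adj p q) :
    BobWins G (fun _ => none : Sym2 V → Option (Fin 4)) := by
  have hc0 : cnt G (fun _ => none : Sym2 V → Option (Fin 4)) = 0 := by
    unfold cnt; simp
  refine bobWins_of_forall (by rw [hc0]; exact Even.zero) ⟨s(u, n 0), (hs.br 0).uv, rfl⟩ ?_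
  intro e he a hen hleg
  induction e using Sym2.ind with
  | _ p q =>
  have hpq : G.Adj p q := he
  have hc2 := cnt_update (G := G) (c := (fun _ => none : Sym2 V → Option (Fin 4))) he rfl a
  have hodd2 : ¬ Even (cnt G (Function.update (fun _ => none : Sym2 V → Option (Fin 4)) s(p, q) (some a))) := by
    rw [hc2, hc0]; decide
  have hseen0 : ∀ x, seen G (fun _ => none : Sym2 V → Option (Fin 4)) x = ∅ := by
    intro x
    ext b
    constructor
    · rintro ⟨y, _, h⟩
      exact absurd h (by simp)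
    · intro h; exact absurd h (by simp)
  by_cases h : InS u n m p ∨ InS u n m q
  · refine four_site hodd2 hs' ?_
    intro x hx
    rw [seen_of_ne hpq hen _ ?_ ?_, hseen0]
    · rintro rfl
      rcases h with h | h
      · exact (hdis _ _ h hx).1 rfl
      · exact (hdis _ _ h hx).2 hpq.symm
    · rintro rfl
      rcases h with h | h
      · exact (hdis _ _ h hx).2 hpq
      · exact (hdis _ _ h hx).1 rfl
  · push Not at h
    refine four_site hodd2 hs ?_
    intro x hx
    rw [seen_of_ne hpq hen _ ?_ ?_, hseen0]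
    · rintro rfl; exact h.1 hx
    · rintro rfl; exact h.2 hx

end Pool.Agent.Lib_helper61.Gci
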